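import Pool.Agent.Helper96.HG.Cell
import Pool.Agent.Helper49.HG.Ex
import Pool.Agent.Helper5.HG.Fact

/-!
# HALL GAPS: the sums over the mollifier factor over the cells
-/

set_option autoImplicit false

open Finset
open scoped ArithmeticFunction.Moebius

namespace Pool.Agent.Helper96.HG

open ArithmeticFunction (cardFactors)
open Pool.Agent.Helper69.HG (InCell Om IsCM Vp)
open Pool.Agent.HG5 (Fp Cells part)
open Pool.Agent.Helper49.HG (om_mul om_one om_le_of_dvd om_pos exists_cell cm_len)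

/-- the primes of cell `j` -/
noncomputable def celS (T ε : ℝ) (j : ℕ) : Finset ℕ := by
  classical
  exact (Icc 1 ⌊T ^ (ε / 2 ^ j)⌋₊).filter (InCell T ε j)

lemma mem_celS {T ε : ℝ} {j p : ℕ} : p ∈ celS T ε j ↔ InCell T ε j p := by
  classical
  unfold celS
  rw [mem_filter, mem_Icc]
  exact ⟨fun h => h.2, fun h => ⟨⟨h.1.one_le, Nat.le_floor h.2.2⟩, h⟩⟩

lemma celS_prime (T ε : ℝ) (j : ℕ) : ∀ p ∈ celS T ε j, p.Prime := fun _ hp => (mem_celS.1 hp).1

lemma cel_lt {T ε : ℝ} (hT : 1 < T) (hε : 0 < ε) {i j p : ℕ} (hi : InCell T ε i p) (hj : InCell T ε j p) : ¬ i < j := by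
  intro hij
  have h1 : (2 : ℝ) ^ (i + 1) ≤ 2 ^ j := pow_le_pow_right₀ (by norm_num) hij
  have h2 : ε / 2 ^ j ≤ ε / 2 ^ (i + 1) := div_le_div_of_nonneg_left hε.le (by positivity) h1
  have h3 : T ^ (ε / 2 ^ j) ≤ T ^ (ε / 2 ^ (i + 1)) := Real.rpow_le_rpow_of_exponent_le hT.le h2
  exact absurd (hi.2.1.trans_le (hj.2.2.trans h3)) (lt_irrefl _)

lemma cel_unique {T ε : ℝ} (hT : 1 < T) (hε : 0 < ε) {i j p : ℕ} (hi : InCell T ε i p) (hj : InCell T ε j p) : i = j := by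
  have h1 := cel_lt hT hε hi hj
  have h2 := cel_lt hT hε hj hi
  omega

/-- the numbers of cell `j` -/
noncomputable def DD (T ε : ℝ) (b j : ℕ) : Finset ℕ := Dn (celS T ε j) (2 * (b + j))

theorem cells {T ε : ℝ} (hT : 1 < T) (hε : 0 < ε) (b : ℕ) : Cells (celS T ε) (DD T ε b) where
  disj := fun i j hij => by
    rw [Finset.disjoint_left]
    intro p hp hq
    exact hij (cel_unique hT hε (mem_celS.1 hp) (mem_celS.1 hq))
  pos := fun j n hn => ((mem_Dn (celS_prime T ε j)).1 hn).1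
  fac := fun j n hn => ((mem_Dn (celS_prime T ε j)).1 hn).2.1

lemma om_zero {T ε : ℝ} {j n : ℕ} (h : ∀ p : ℕ, p.Prime → p ∣ n → ¬ InCell T ε j p) : Om T ε j n = 0 := by
  classical
  unfold Om
  rw [List.length_eq_zero_iff, List.filter_eq_nil_iff]
  intro p hp
  have h1 := h p (Nat.prime_of_mem_primeFactorsList hp) (Nat.dvd_of_mem_primeFactorsList hp)
  simpa using h1

lemma om_all {T ε : ℝ} {j n : ℕ} (h : ∀ p : ℕ, p.Prime → p ∣ n → InCell T ε j p) : Om T ε j n = cardFactors n := by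
  classical
  unfold Om
  rw [ArithmeticFunction.cardFactors_apply, List.filter_eq_self.2]
  intro p hp
  have h1 := h p (Nat.prime_of_mem_primeFactorsList hp) (Nat.dvd_of_mem_primeFactorsList hp)
  simpa using h1

lemma part_dvd {S : Finset ℕ} (hS : ∀ p ∈ S, p.Prime) (m : ℕ) : part S m ∣ m := by
  unfold part
  apply Finset.prod_dvd_of_isRelPrime
  · intro p hp q hq hpq
    rw [Function.onFun, ← Nat.coprime_iff_isRelPrime]
    exact Nat.Coprime.pow _ _ ((Nat.coprime_primes (hS p hp) (hS q hq)).2 hpq)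
  · intro p _
    exact Nat.ordProj_dvd m p

lemma part_fac {S : Finset ℕ} (hS : ∀ p ∈ S, p.Prime) (m : ℕ) : ∀ p : ℕ, p.Prime → p ∣ part S m → p ∈ S := by
  intro p hp hd
  unfold part at hd
  obtain ⟨q, hq, h1⟩ := (hp.prime.dvd_finsetProd_iff _).1 hd
  have h2 := hp.dvd_of_dvd_pow h1
  rw [(Nat.prime_dvd_prime_iff_eq hp (hS q hq)).1 h2]
  exact hq

/-- the mollifier is supported on the products over the cells -/
theorem supp_Fp {T ε : ℝ} (hT : 1 < T) (hε : 0 < ε) {b : ℕ} {a : ℕ → ℝ} (ha : IsCM T ε b a) {J : ℕ}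
    (hJ : T ^ (ε / 2 ^ J) < 2) {n : ℕ} (hn : n ≠ 0) (h : a n ≠ 0) : n ∈ Fp (DD T ε b) J := by
  refine (cells hT hε b).mem_Fp hn ?_ ?_
  · intro p hp hd
    have h1 : (p : ℝ) ≤ T ^ ε := by
      by_contra hcon
      exact h (ha.big n p hp hd (not_le.1 hcon))
    obtain ⟨j, hj⟩ := exists_cell hT hp h1
    refine ⟨j, ?_, mem_celS.2 hj⟩
    by_contra hcon
    have h2 : (2 : ℝ) ^ J ≤ 2 ^ j := pow_le_pow_right₀ (by norm_num) (not_lt.1 hcon)
    have h3 : T ^ (ε / 2 ^ j) ≤ T ^ (ε / 2 ^ J) :=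
      Real.rpow_le_rpow_of_exponent_le hT.le (div_le_div_of_nonneg_left hε.le (by positivity) h2)
    have h4 : (2 : ℝ) ≤ p := by exact_mod_cast hp.two_le
    linarith [hj.2.2]
  · intro j _
    have h1 := part_dvd (celS_prime T ε j) n
    have h2 := part_fac (celS_prime T ε j) n
    unfold DD
    rw [mem_Dn (celS_prime T ε j)]
    refine ⟨ne_zero_of_dvd_ne_zero hn h1, h2, ?_⟩
    rw [← om_all (T := T) (ε := ε) (j := j) fun p hp hd => mem_celS.1 (h2 p hp hd)]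
    refine (om_le_of_dvd T ε j hn h1).trans ?_
    by_contra hcon
    exact h (ha.supp n j (not_le.1 hcon))

/-- sums over the mollifier are sums over the products over the cells -/
theorem sum_Fp {T ε : ℝ} (hT : 1 < T) (hε : 0 < ε) {b : ℕ} {a : ℕ → ℝ} (ha : IsCM T ε b a) {X : ℕ}
    (hX : T ^ (2 * (ε * (2 * b + 2))) ≤ (X : ℝ)) {J : ℕ} (hJ : T ^ (ε / 2 ^ J) < 2) (g : ℕ → ℂ) :
    ∑ n ∈ Icc 1 X, (a n : ℂ) * g n = ∑ n ∈ Fp (DD T ε b) J, (a n : ℂ) * g n := by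
  classical
  have e : ∀ s : Finset ℕ, ∑ n ∈ s, (a n : ℂ) * g n = ∑ n ∈ s.filter (fun n => a n ≠ 0), (a n : ℂ) * g n := by
    intro s
    rw [Finset.sum_filter]
    refine Finset.sum_congr rfl fun n _ => ?_
    split_ifs with h
    · rfl
    · rw [not_not.1 h]
      simp
  rw [e, e (Fp _ _)]
  refine Finset.sum_congr ?_ fun _ _ => rfl
  ext n
  simp only [mem_filter, mem_Icc]
  constructor
  · rintro ⟨⟨h1, _⟩, h3⟩
    exact ⟨supp_Fp hT hε ha hJ (by omega) h3, h3⟩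
  · rintro ⟨h1, h3⟩
    have h0 := (cells hT hε b).Fp_pos J n h1
    refine ⟨⟨Nat.one_le_iff_ne_zero.2 h0, ?_⟩, h3⟩
    exact_mod_cast (cm_len hT hε ha h0 h3).trans hX

/-- the mollifier is multiplicative across the cells -/
lemma a_mul {T ε : ℝ} (hT : 1 < T) (hε : 0 < ε) {b : ℕ} {a : ℕ → ℝ} (ha : IsCM T ε b a) {J u v : ℕ}
    (hu : u ∈ Fp (DD T ε b) J) (hv : v ∈ DD T ε b J) : a (u * v) = a u * a v := by
  have hC := cells hT hε b
  refine ha.mul u v (hC.Fp_pos J u hu) (hC.pos J v hv) fun j => ?_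
  rcases eq_or_ne j J with rfl | hj
  · left
    refine om_zero fun p hp hd hin => ?_
    obtain ⟨i, hi, h1⟩ := hC.Fp_fac j u hu p hp hd
    have := cel_unique hT hε (mem_celS.1 h1) hin
    omega
  · right
    refine om_zero fun p hp hd hin => ?_
    exact hj (cel_unique hT hε hin (mem_celS.1 (hC.fac J v hv p hp hd)))

/-- FACT for the mollifier -/
theorem cells_sum {T ε : ℝ} (hT : 1 < T) (hε : 0 < ε) {b : ℕ} {a : ℕ → ℝ} (ha : IsCM T ε b a) {X : ℕ}
    (hX : T ^ (2 * (ε * (2 * b + 2))) ≤ (X : ℝ)) {J : ℕ} (hJ : T ^ (ε / 2 ^ J) < 2) {A B G : ℕ → ℂ}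
    (hA : CMul A) (hB : CMul B) (hG : CMul G) :
    ∑ m ∈ Icc 1 X, ∑ n ∈ Icc 1 X, (a m : ℂ) * (a n : ℂ) * (A m * B n * G (Nat.gcd m n)) =
      ∏ j ∈ range J, ∑ m ∈ Dn (celS T ε j) (2 * (b + j)), ∑ n ∈ Dn (celS T ε j) (2 * (b + j)),
        (a m : ℂ) * (a n : ℂ) * (A m * B n * G (Nat.gcd m n)) := by
  have hC := cells hT hε b
  have e1 : ∑ m ∈ Icc 1 X, ∑ n ∈ Icc 1 X, (a m : ℂ) * (a n : ℂ) * (A m * B n * G (Nat.gcd m n)) =
      ∑ m ∈ Fp (DD T ε b) J, ∑ n ∈ Fp (DD T ε b) J, (a m : ℂ) * (a n : ℂ) * WW A B G m n := by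
    have f1 : ∀ m n : ℕ, (a m : ℂ) * (a n : ℂ) * (A m * B n * G (Nat.gcd m n)) = (a n : ℂ) * ((a m : ℂ) * WW A B G m n) := by
      intro m n
      unfold WW
      ring
    have f2 : ∀ m : ℕ, ∑ n ∈ Icc 1 X, (a m : ℂ) * (a n : ℂ) * (A m * B n * G (Nat.gcd m n)) =
        (a m : ℂ) * ∑ n ∈ Fp (DD T ε b) J, (a n : ℂ) * WW A B G m n := by
      intro m
      rw [Finset.sum_congr rfl fun n _ => f1 m n, sum_Fp hT hε ha hX hJ, Finset.mul_sum]
      exact Finset.sum_congr rfl fun n _ => by ring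
    rw [Finset.sum_congr rfl fun m _ => f2 m, sum_Fp hT hε ha hX hJ]
    refine Finset.sum_congr rfl fun m _ => ?_
    rw [Finset.mul_sum]
    exact Finset.sum_congr rfl fun n _ => by ring
  rw [e1, hC.fact2 (fun m n => (a m : ℂ) * (a n : ℂ) * WW A B G m n)]
  · rfl
  · rw [ha.one, WW_one hA hB hG]
    simp
  · intro J u hu u' hu' v hv v' hv'
    rw [a_mul hT hε ha hu hv, a_mul hT hε ha hu' hv', WW_mul hA hB hG (hC.Fp_pos J u hu) (hC.Fp_pos J u' hu')
      (hC.pos J v hv) (hC.pos J v' hv') (hC.coprime hu hv) (hC.coprime hu hv') (hC.coprime hu' hv) (hC.coprime hu' hv')]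
    push_cast
    ring

/-- products over the primes up to `T^ε`, by cells -/
theorem prod_cells {T ε : ℝ} (hT : 1 < T) (hε : 0 < ε) {J : ℕ} (hJ : T ^ (ε / 2 ^ J) < 2) {M : Type*} [CommMonoid M]
    (f : ℕ → M) : ∏ p ∈ (Icc 1 ⌊T ^ ε⌋₊).filter Nat.Prime, f p = ∏ j ∈ range J, ∏ p ∈ celS T ε j, f p := by
  have hT0 : 0 < T := by linarith
  rw [← Finset.prod_biUnion]
  · refine Finset.prod_congr ?_ fun _ _ => rfl
    ext p
    simp only [mem_filter, mem_Icc, mem_biUnion, mem_range, mem_celS]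
    constructor
    · rintro ⟨⟨h1, h2⟩, hp⟩
      have h3 : (p : ℝ) ≤ T ^ ε := (Nat.le_floor_iff (by positivity)).1 h2
      obtain ⟨j, hj⟩ := exists_cell hT hp h3
      refine ⟨j, ?_, hj⟩
      by_contra hcon
      have h2 : (2 : ℝ) ^ J ≤ 2 ^ j := pow_le_pow_right₀ (by norm_num) (not_lt.1 hcon)
      have h3 : T ^ (ε / 2 ^ j) ≤ T ^ (ε / 2 ^ J) :=
        Real.rpow_le_rpow_of_exponent_le hT.le (div_le_div_of_nonneg_left hε.le (by positivity) h2)
      have h4 : (2 : ℝ) ≤ p := by exact_mod_cast hp.two_le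
      linarith [hj.2.2]
    · rintro ⟨j, _, hj⟩
      refine ⟨⟨hj.1.one_le, Nat.le_floor (hj.2.2.trans ?_)⟩, hj.1⟩
      refine Real.rpow_le_rpow_of_exponent_le hT.le (div_le_self hε.le ?_)
      exact one_le_pow₀ (by norm_num)
  · intro i _ j _ hij
    exact (cells hT hε 0).disj i j hij

end Pool.Agent.Helper96.HG
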