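import Pool.Agent.Helper96.HG.Cells
import Pool.Agent.Helper65.HG.CSm

/-!
# HALL GAPS, block SV: the sieve sums
-/

set_option autoImplicit false

open Finset
open scoped ArithmeticFunction.Moebius

namespace Pool.Agent.Helper96.HG

open Pool.Agent.Helper69.HG (InCell Om IsCM Vp Ql Qg XM SV)
open Pool.Agent.Helper5.RM (PP)

/-- `δ_p`: the change of the local factor -/
noncomputable def dl (σ : ℝ) (p : ℕ) : ℝ := (1 / (p : ℝ) - (p : ℝ) ^ (-2 * σ)) / (1 - 1 / (p : ℝ))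

lemma rp_le {σ : ℝ} (hσ : 1 / 2 ≤ σ) {n : ℕ} (hn : n ≠ 0) : (n : ℝ) ^ (-2 * σ) ≤ 1 / (n : ℝ) := by
  have h1 : (1 : ℝ) ≤ n := by exact_mod_cast Nat.one_le_iff_ne_zero.2 hn
  rw [one_div, ← Real.rpow_neg_one]
  exact Real.rpow_le_rpow_of_exponent_le h1 (by linarith)

lemma one_sub_inv {p : ℕ} (hp : p.Prime) : (1 / 2 : ℝ) ≤ 1 - 1 / (p : ℝ) := by
  have h1 : (2 : ℝ) ≤ p := by exact_mod_cast hp.two_le
  have h2 : 1 / (p : ℝ) ≤ 1 / 2 := one_div_le_one_div_of_le (by norm_num) h1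
  linarith

lemma dl_nonneg {σ : ℝ} (hσ : 1 / 2 ≤ σ) {p : ℕ} (hp : p.Prime) : 0 ≤ dl σ p := by
  have h1 := rp_le hσ hp.ne_zero
  have h2 := one_sub_inv hp
  exact div_nonneg (by linarith) (by linarith)

lemma dl_le {σ : ℝ} (hσ : 1 / 2 ≤ σ) {p : ℕ} (hp : p.Prime) : dl σ p ≤ 4 * (σ - 1 / 2) * (Real.log p / p) := by
  have hp0 : (0 : ℝ) < p := by exact_mod_cast hp.pos
  have h2 := one_sub_inv hp
  have h3 : (p : ℝ) ^ (-2 * σ) = 1 / (p : ℝ) * (p : ℝ) ^ (-(2 * σ - 1)) := by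
    rw [one_div, ← Real.rpow_neg_one, ← Real.rpow_add hp0]
    congr 1
    ring
  have h4 : 1 - (2 * σ - 1) * Real.log p ≤ (p : ℝ) ^ (-(2 * σ - 1)) := by
    rw [Real.rpow_def_of_pos hp0]
    have := Real.add_one_le_exp (Real.log p * (-(2 * σ - 1)))
    linarith
  unfold dl
  rw [div_le_iff₀ (by linarith), h3]
  have h5 : 0 ≤ Real.log p := Real.log_natCast_nonneg p
  have h6 : 0 ≤ Real.log p / p := by positivity
  have h7 : 1 / (p : ℝ) - 1 / (p : ℝ) * (p : ℝ) ^ (-(2 * σ - 1)) ≤ (2 * σ - 1) * (Real.log p / p) := by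
    have : 1 / (p : ℝ) - 1 / (p : ℝ) * (p : ℝ) ^ (-(2 * σ - 1)) = 1 / (p : ℝ) * (1 - (p : ℝ) ^ (-(2 * σ - 1))) := by ring
    rw [this]
    calc 1 / (p : ℝ) * (1 - (p : ℝ) ^ (-(2 * σ - 1))) ≤ 1 / (p : ℝ) * ((2 * σ - 1) * Real.log p) :=
          mul_le_mul_of_nonneg_left (by linarith) (by positivity)
      _ = (2 * σ - 1) * (Real.log p / p) := by ring
  have h8 : 0 ≤ (2 * σ - 1) * (Real.log p / p) := mul_nonneg (by linarith) h6
  have h9 : (2 * σ - 1) * (Real.log p / p) * 1 ≤ (2 * σ - 1) * (Real.log p / p) * (2 * (1 - 1 / (p : ℝ))) :=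
    mul_le_mul_of_nonneg_left (by linarith) h8
  linarith

lemma one_add_ge {x : ℝ} (hx : |x| ≤ 1 / 2) : Real.exp (-2 * |x|) ≤ 1 + x := by
  rcases le_or_gt 0 x with h | h
  · rw [abs_of_nonneg h]
    have : Real.exp (-2 * x) ≤ 1 := Real.exp_le_one_iff.2 (by linarith)
    linarith
  · rw [abs_of_neg h] at hx ⊢
    have h1 : 0 < 1 + x := by linarith
    have h2 := Real.one_sub_inv_le_log_of_pos h1
    have h3 : -2 * -x ≤ 1 - (1 + x)⁻¹ := by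
      rw [le_sub_iff_add_le, ← le_sub_iff_add_le', inv_le_comm₀ h1 (by linarith)]
      rw [inv_le_iff_one_le_mul₀ (by linarith)]
      nlinarith
    calc Real.exp (-2 * -x) ≤ Real.exp (Real.log (1 + x)) := Real.exp_le_exp.2 (h3.trans h2)
      _ = 1 + x := Real.exp_log h1

lemma geom_cells (b J : ℕ) : ∑ j ∈ range J, (9 / 10 : ℝ) ^ (b + j) ≤ 10 * (9 / 10) ^ b := by
  have h1 : ∀ J : ℕ, ∑ j ∈ range J, (9 / 10 : ℝ) ^ j ≤ 10 := by
    intro J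
    rw [geom_sum_eq (by norm_num)]
    rw [div_le_iff_of_neg (by norm_num)]
    have : (0 : ℝ) ≤ (9 / 10) ^ J := by positivity
    linarith
  simp only [pow_add]
  rw [← Finset.mul_sum, mul_comm]
  exact mul_le_mul_of_nonneg_right (h1 J) (by positivity)

lemma exists_J {T : ℝ} (hT : 1 < T) (ε : ℝ) : ∃ J : ℕ, T ^ (ε / 2 ^ J) < 2 := by
  have hT0 : 0 < T := by linarith
  have h1 : Filter.Tendsto (fun j : ℕ => T ^ (ε / 2 ^ j)) Filter.atTop (nhds (T ^ (0 : ℝ))) := by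
    have h2 : Filter.Tendsto (fun j : ℕ => ε / (2 : ℝ) ^ j) Filter.atTop (nhds 0) :=
      (tendsto_pow_atTop_atTop_of_one_lt (by norm_num)).const_div_atTop ε
    exact (Real.continuous_const_rpow hT0.ne').continuousAt.tendsto.comp h2
  rw [Real.rpow_zero] at h1
  exact (h1.eventually (gt_mem_nhds (show (1 : ℝ) < 2 by norm_num))).exists

lemma Vp_pos (T ε : ℝ) : 0 < Vp T ε := by
  unfold Vp
  refine Finset.prod_pos fun p hp => ?_
  have := one_sub_inv (mem_filter.1 hp).2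
  linarith

/-- the sums over the mollifier, abstract form -/
theorem core {T ε : ℝ} (hT : 1 < T) (hε : 0 < ε) {b : ℕ} {a : ℕ → ℝ} (ha : IsCM T ε b a) {X : ℕ}
    (hX : T ^ (2 * (ε * (2 * b + 2))) ≤ (X : ℝ)) {c₀ : ℝ} (hc : ∀ j, ∑ p ∈ celS T ε j, 1 / (p : ℝ) ≤ c₀) {A B G : ℕ → ℂ}
    (hA : CMul A) (hB : CMul B) (hG : CMul G) (bA : ∀ n : ℕ, n ≠ 0 → ‖A n‖ ≤ 1 / n) (bB : ∀ n : ℕ, n ≠ 0 → ‖B n‖ ≤ 1 / n)
    (bG : ∀ n : ℕ, n ≠ 0 → ‖A n * B n * G n‖ ≤ 1 / n) {d : ℕ → ℝ}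
    (hloc : ∀ p : ℕ, p.Prime → 1 - A p - B p + A p * B p * G p = (((1 - 1 / (p : ℝ)) * (1 + d p) : ℝ) : ℂ))
    {s : ℝ} (hs : ∑ p ∈ (Icc 1 ⌊T ^ ε⌋₊).filter Nat.Prime, |d p| ≤ s) (hs1 : s ≤ 1 / 2) :
    ‖(∑ m ∈ Icc 1 X, ∑ n ∈ Icc 1 X, (a m : ℂ) * (a n : ℂ) * (A m * B n * G (Nat.gcd m n))) - (Vp T ε : ℂ)‖ ≤
      Vp T ε * (Real.exp (s + 20 * Real.exp (52 * c₀ + 1) * (9 / 10) ^ b) - 1) := by
  classical
  obtain ⟨J, hJ⟩ := exists_J hT ε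
  rw [cells_sum hT hε ha hX hJ hA hB hG]
  have hT0 : 0 < T := by linarith
  have hsub : ∀ j, celS T ε j ⊆ (Icc 1 ⌊T ^ ε⌋₊).filter Nat.Prime := by
    intro j p hp
    have hj := mem_celS.1 hp
    rw [mem_filter, mem_Icc]
    refine ⟨⟨hj.1.one_le, Nat.le_floor (hj.2.2.trans ?_)⟩, hj.1⟩
    refine Real.rpow_le_rpow_of_exponent_le hT.le (div_le_self hε.le ?_)
    exact one_le_pow₀ (by norm_num)
  have hd : ∀ p ∈ (Icc 1 ⌊T ^ ε⌋₊).filter Nat.Prime, |d p| ≤ 1 / 2 := by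
    intro p hp
    exact ((Finset.single_le_sum (f := fun p => |d p|) (fun _ _ => abs_nonneg _) hp).trans hs).trans hs1
  -- the products of the cells
  obtain ⟨P, hP⟩ : ∃ P : ℕ → ℝ, P = fun j => ∏ p ∈ celS T ε j, (1 - 1 / (p : ℝ)) * (1 + d p) := ⟨_, rfl⟩
  obtain ⟨Cl, hCl⟩ : ∃ Cl : ℕ → ℂ, Cl = fun j => ∑ m ∈ Dn (celS T ε j) (2 * (b + j)), ∑ n ∈ Dn (celS T ε j) (2 * (b + j)),
      (a m : ℂ) * (a n : ℂ) * (A m * B n * G (Nat.gcd m n)) := ⟨_, rfl⟩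
  have hPlow : ∀ j, Real.exp (-2 * c₀ - 1) ≤ P j := by
    intro j
    rw [hP]
    simp only
    calc Real.exp (-2 * c₀ - 1) ≤ Real.exp (∑ p ∈ celS T ε j, (-2 * (1 / (p : ℝ)) + -2 * |d p|)) := by
          refine Real.exp_le_exp.2 ?_
          rw [Finset.sum_add_distrib, ← Finset.mul_sum, ← Finset.mul_sum]
          have h1 := hc j
          have h2 : ∑ p ∈ celS T ε j, |d p| ≤ 1 / 2 :=
            ((Finset.sum_le_sum_of_subset_of_nonneg (hsub j) fun _ _ _ => abs_nonneg _).trans hs).trans hs1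
          linarith
      _ = ∏ p ∈ celS T ε j, Real.exp (-2 * (1 / (p : ℝ)) + -2 * |d p|) := Real.exp_sum _ _
      _ ≤ ∏ p ∈ celS T ε j, (1 - 1 / (p : ℝ)) * (1 + d p) := by
          refine Finset.prod_le_prod (fun _ _ => (Real.exp_pos _).le) fun p hp => ?_
          rw [Real.exp_add]
          have hp' := (mem_celS.1 hp).1
          have h1 : Real.exp (-2 * (1 / (p : ℝ))) ≤ 1 - 1 / (p : ℝ) := by
            have h2 := one_sub_inv hp'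
            have h3 : |-(1 / (p : ℝ))| = 1 / (p : ℝ) := by rw [abs_neg, abs_of_nonneg (by positivity)]
            have h4 := one_add_ge (x := -(1 / (p : ℝ))) (by rw [h3]; linarith)
            rw [h3] at h4
            linarith
          have h2 := one_add_ge (hd p (hsub j hp))
          exact mul_le_mul h1 h2 (Real.exp_pos _).le ((Real.exp_pos _).le.trans h1)
  have hPpos : ∀ j, 0 < P j := fun j => (Real.exp_pos _).trans_le (hPlow j)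
  have hcell : ∀ j, ‖Cl j - (P j : ℂ)‖ ≤ 2 * Real.exp (50 * c₀) * (9 / 10) ^ (b + j) := by
    intro j
    have h1 := cell (celS_prime T ε j) (hc j) (l := b + j) (a := a) (fun n _ => ha.bd n) (fun n hn => by
      have h2 := (mem_Dn (celS_prime T ε j)).1 hn
      refine ha.mu n j h2.1 (fun p hp hd => mem_celS.1 (h2.2.1 p hp hd)) ?_
      rw [om_all (T := T) (ε := ε) (j := j) fun p hp hd => mem_celS.1 (h2.2.1 p hp hd)]
      exact h2.2.2) hA hB hG bA bB bG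
    have h2 : ∏ p ∈ celS T ε j, (1 - A p - B p + A p * B p * G p) = (P j : ℂ) := by
      rw [hP]
      simp only
      rw [Complex.ofReal_prod]
      exact Finset.prod_congr rfl fun p hp => hloc p (mem_celS.1 hp).1
    rw [h2] at h1
    rw [hCl]
    exact h1
  obtain ⟨θ, hθ⟩ : ∃ θ : ℕ → ℂ, θ = fun j => (Cl j - (P j : ℂ)) / (P j : ℂ) := ⟨_, rfl⟩
  have hPne : ∀ j, (P j : ℂ) ≠ 0 := fun j => Complex.ofReal_ne_zero.2 (hPpos j).ne'
  have hCθ : ∀ j, Cl j = (P j : ℂ) * (1 + θ j) := by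
    intro j
    rw [hθ]
    simp only
    rw [mul_add, mul_one, mul_div_cancel₀ _ (hPne j)]
    ring
  have hθb : ∀ j, ‖θ j‖ ≤ 2 * Real.exp (52 * c₀ + 1) * (9 / 10) ^ (b + j) := by
    intro j
    rw [hθ]
    simp only
    rw [norm_div, Complex.norm_real, Real.norm_eq_abs, abs_of_pos (hPpos j), div_le_iff₀ (hPpos j)]
    calc ‖Cl j - (P j : ℂ)‖ ≤ 2 * Real.exp (50 * c₀) * (9 / 10) ^ (b + j) := hcell j
      _ = 2 * Real.exp (52 * c₀ + 1) * (9 / 10) ^ (b + j) * Real.exp (-2 * c₀ - 1) := by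
          have : Real.exp (50 * c₀) = Real.exp (52 * c₀ + 1) * Real.exp (-2 * c₀ - 1) := by
            rw [← Real.exp_add]
            congr 1
            ring
          rw [this]
          ring
      _ ≤ _ := mul_le_mul_of_nonneg_left (hPlow j) (by positivity)
  have hθs : ∑ j ∈ range J, ‖θ j‖ ≤ 20 * Real.exp (52 * c₀ + 1) * (9 / 10) ^ b := by
    refine (Finset.sum_le_sum fun j _ => hθb j).trans ?_
    rw [← Finset.mul_sum]
    have := mul_le_mul_of_nonneg_left (geom_cells b J) (show 0 ≤ 2 * Real.exp (52 * c₀ + 1) by positivity)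
    linarith
  -- the product of the cell products
  have hPprod : ∏ j ∈ range J, (P j : ℂ) = (Vp T ε : ℂ) * ∏ p ∈ (Icc 1 ⌊T ^ ε⌋₊).filter Nat.Prime, (1 + (d p : ℂ)) := by
    rw [hP]
    simp only
    rw [← Complex.ofReal_prod, ← prod_cells hT hε hJ, Finset.prod_mul_distrib]
    unfold Vp
    push_cast
    rfl
  have e1 : ∏ j ∈ range J, Cl j = (Vp T ε : ℂ) * ((∏ p ∈ (Icc 1 ⌊T ^ ε⌋₊).filter Nat.Prime, (1 + (d p : ℂ))) *
      ∏ j ∈ range J, (1 + θ j)) := by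
    rw [Finset.prod_congr rfl fun j _ => hCθ j, Finset.prod_mul_distrib, hPprod, mul_assoc]
  have e2 : ∏ j ∈ range J, ∑ m ∈ Dn (celS T ε j) (2 * (b + j)), ∑ n ∈ Dn (celS T ε j) (2 * (b + j)),
      (a m : ℂ) * (a n : ℂ) * (A m * B n * G (Nat.gcd m n)) = ∏ j ∈ range J, Cl j := by
    rw [hCl]
  rw [e2, e1]
  obtain ⟨u, hu⟩ : ∃ u, u = ∏ p ∈ (Icc 1 ⌊T ^ ε⌋₊).filter Nat.Prime, (1 + (d p : ℂ)) := ⟨_, rfl⟩
  obtain ⟨v, hv⟩ : ∃ v, v = ∏ j ∈ range J, (1 + θ j) := ⟨_, rfl⟩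
  obtain ⟨t, ht⟩ : ∃ t, t = 20 * Real.exp (52 * c₀ + 1) * (9 / 10 : ℝ) ^ b := ⟨_, rfl⟩
  rw [← hu, ← hv, ← ht]
  have hu1 : ‖u - 1‖ ≤ Real.exp s - 1 := by
    rw [hu]
    refine (Finset.norm_prod_one_add_sub_one_le _ _).trans ?_
    refine sub_le_sub_right (Real.exp_le_exp.2 ?_) 1
    simpa using hs
  have hv1 : ‖v - 1‖ ≤ Real.exp t - 1 := by
    rw [hv]
    refine (Finset.norm_prod_one_add_sub_one_le _ _).trans ?_
    rw [ht]
    exact sub_le_sub_right (Real.exp_le_exp.2 hθs) 1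
  have e3 : (Vp T ε : ℂ) * (u * v) - (Vp T ε : ℂ) = (Vp T ε : ℂ) * ((u - 1) * (v - 1) + (u - 1) + (v - 1)) := by ring
  rw [e3, norm_mul, Complex.norm_real, Real.norm_eq_abs, abs_of_pos (Vp_pos T ε)]
  refine mul_le_mul_of_nonneg_left ?_ (Vp_pos T ε).le
  refine (norm_add_le _ _).trans ((add_le_add (norm_add_le _ _) le_rfl).trans ?_)
  rw [norm_mul]
  have h0 : 0 ≤ Real.exp s - 1 := (norm_nonneg _).trans hu1
  have h1 := mul_le_mul hu1 hv1 (norm_nonneg _) h0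
  calc ‖u - 1‖ * ‖v - 1‖ + ‖u - 1‖ + ‖v - 1‖ ≤ (Real.exp s - 1) * (Real.exp t - 1) + (Real.exp s - 1) + (Real.exp t - 1) := by
        linarith
    _ = Real.exp (s + t) - 1 := by
        rw [Real.exp_add]
        ring

/-! ### the two sums -/

/-- the powers, as completely multiplicative functions -/
noncomputable def pw (r : ℝ) (n : ℕ) : ℂ := (((n : ℝ) ^ r : ℝ) : ℂ)

lemma cmul_pw (r : ℝ) : CMul (pw r) where
  one := by
    unfold pw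
    simp
  mul := fun m n _ _ => by
    unfold pw
    rw [Nat.cast_mul, Real.mul_rpow (Nat.cast_nonneg m) (Nat.cast_nonneg n)]
    push_cast
    rfl

lemma norm_pw (r : ℝ) (n : ℕ) : ‖pw r n‖ = (n : ℝ) ^ r := by
  unfold pw
  rw [Complex.norm_real, Real.norm_eq_abs, abs_of_nonneg (by positivity)]

lemma lcm_rp {m n : ℕ} (hm : m ≠ 0) (hn : n ≠ 0) (σ : ℝ) : (Nat.lcm m n : ℝ) ^ (-2 * σ) =
    (m : ℝ) ^ (-2 * σ) * (n : ℝ) ^ (-2 * σ) * (Nat.gcd m n : ℝ) ^ (2 * σ) := by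
  have hg : (0 : ℝ) < (Nat.gcd m n : ℝ) := by exact_mod_cast Nat.gcd_pos_of_pos_left _ (Nat.pos_of_ne_zero hm)
  have h1 : (Nat.gcd m n : ℝ) * (Nat.lcm m n : ℝ) = (m : ℝ) * n := by exact_mod_cast Nat.gcd_mul_lcm m n
  have h2 : (Nat.gcd m n : ℝ) ^ (-2 * σ) * (Nat.lcm m n : ℝ) ^ (-2 * σ) = (m : ℝ) ^ (-2 * σ) * (n : ℝ) ^ (-2 * σ) := by
    rw [← Real.mul_rpow (by positivity) (by positivity), h1, Real.mul_rpow (by positivity) (by positivity)]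
  have h3 : (Nat.gcd m n : ℝ) ^ (2 * σ) * (Nat.gcd m n : ℝ) ^ (-2 * σ) = 1 := by
    rw [← Real.rpow_add hg]
    have : 2 * σ + -2 * σ = 0 := by ring
    rw [this, Real.rpow_zero]
  rw [← h2]
  calc (Nat.lcm m n : ℝ) ^ (-2 * σ) = (Nat.gcd m n : ℝ) ^ (2 * σ) * (Nat.gcd m n : ℝ) ^ (-2 * σ) * (Nat.lcm m n : ℝ) ^ (-2 * σ) := by
        rw [h3, one_mul]
    _ = _ := by ring

lemma gcd_rp {m n : ℕ} (hm : m ≠ 0) (hn : n ≠ 0) (σ : ℝ) : (Nat.gcd m n : ℝ) ^ (1 - 2 * σ) / Nat.lcm m n =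
    (m : ℝ) ^ (-1 : ℝ) * (n : ℝ) ^ (-1 : ℝ) * (Nat.gcd m n : ℝ) ^ (2 - 2 * σ) := by
  have hg : (0 : ℝ) < (Nat.gcd m n : ℝ) := by exact_mod_cast Nat.gcd_pos_of_pos_left _ (Nat.pos_of_ne_zero hm)
  have hl : (0 : ℝ) < (Nat.lcm m n : ℝ) := by exact_mod_cast Nat.lcm_pos (Nat.pos_of_ne_zero hm) (Nat.pos_of_ne_zero hn)
  have h1 : (Nat.gcd m n : ℝ) * (Nat.lcm m n : ℝ) = (m : ℝ) * n := by exact_mod_cast Nat.gcd_mul_lcm m n
  have h2 : (Nat.gcd m n : ℝ) ^ (2 - 2 * σ) = (Nat.gcd m n : ℝ) ^ (1 - 2 * σ) * (Nat.gcd m n : ℝ) := by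
    rw [← Real.rpow_add_one hg.ne']
    congr 1
    ring
  have hm0 : (m : ℝ) ≠ 0 := Nat.cast_ne_zero.2 hm
  have hn0 : (n : ℝ) ≠ 0 := Nat.cast_ne_zero.2 hn
  rw [h2, Real.rpow_neg_one, Real.rpow_neg_one, div_eq_iff hl.ne']
  calc (Nat.gcd m n : ℝ) ^ (1 - 2 * σ) = (m : ℝ)⁻¹ * (n : ℝ)⁻¹ * ((m : ℝ) * n) * (Nat.gcd m n : ℝ) ^ (1 - 2 * σ) := by
        field_simp
    _ = (m : ℝ)⁻¹ * (n : ℝ)⁻¹ * ((Nat.gcd m n : ℝ) * (Nat.lcm m n : ℝ)) * (Nat.gcd m n : ℝ) ^ (1 - 2 * σ) := by rw [h1]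
    _ = _ := by ring

lemma Ql_eq (X : ℕ) (a : ℕ → ℝ) (σ : ℝ) : (Ql X a σ : ℂ) = ∑ m ∈ Icc 1 X, ∑ n ∈ Icc 1 X, (a m : ℂ) * (a n : ℂ) *
    (pw (-2 * σ) m * pw (-2 * σ) n * pw (2 * σ) (Nat.gcd m n)) := by
  unfold Ql
  rw [Complex.ofReal_sum]
  refine Finset.sum_congr rfl fun m hm => ?_
  rw [Complex.ofReal_sum]
  refine Finset.sum_congr rfl fun n hn => ?_
  rw [mem_Icc] at hm hn
  rw [lcm_rp (by omega) (by omega)]
  unfold pw
  push_cast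
  rfl

lemma Qg_eq (X : ℕ) (a : ℕ → ℝ) (σ : ℝ) : (Qg X a σ : ℂ) = ∑ m ∈ Icc 1 X, ∑ n ∈ Icc 1 X, (a m : ℂ) * (a n : ℂ) *
    (pw (-1) m * pw (-1) n * pw (2 - 2 * σ) (Nat.gcd m n)) := by
  unfold Qg
  rw [Complex.ofReal_sum]
  refine Finset.sum_congr rfl fun m hm => ?_
  rw [Complex.ofReal_sum]
  refine Finset.sum_congr rfl fun n hn => ?_
  rw [mem_Icc] at hm hn
  rw [gcd_rp (by omega) (by omega)]
  unfold pw
  push_cast
  rfl

lemma dl_mul (σ : ℝ) {p : ℕ} (hp : p.Prime) : (1 - 1 / (p : ℝ)) * dl σ p = 1 / (p : ℝ) - (p : ℝ) ^ (-2 * σ) := by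
  have := one_sub_inv hp
  unfold dl
  rw [mul_div_cancel₀ _ (by linarith)]

lemma loc_l (σ : ℝ) {p : ℕ} (hp : p.Prime) : 1 - pw (-2 * σ) p - pw (-2 * σ) p + pw (-2 * σ) p * pw (-2 * σ) p * pw (2 * σ) p =
    (((1 - 1 / (p : ℝ)) * (1 + dl σ p) : ℝ) : ℂ) := by
  have hp0 : (0 : ℝ) < p := by exact_mod_cast hp.pos
  unfold pw
  rw [mul_add, dl_mul σ hp, ← Complex.ofReal_mul, ← Complex.ofReal_mul]
  have h1 : (p : ℝ) ^ (-2 * σ) * (p : ℝ) ^ (-2 * σ) * (p : ℝ) ^ (2 * σ) = (p : ℝ) ^ (-2 * σ) := by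
    rw [← Real.rpow_add hp0, ← Real.rpow_add hp0]
    congr 1
    ring
  rw [h1]
  push_cast
  ring

lemma loc_g (σ : ℝ) {p : ℕ} (hp : p.Prime) : 1 - pw (-1) p - pw (-1) p + pw (-1) p * pw (-1) p * pw (2 - 2 * σ) p =
    (((1 - 1 / (p : ℝ)) * (1 + -dl σ p) : ℝ) : ℂ) := by
  have hp0 : (0 : ℝ) < p := by exact_mod_cast hp.pos
  unfold pw
  rw [mul_add, mul_neg, dl_mul σ hp, ← Complex.ofReal_mul, ← Complex.ofReal_mul]
  have h1 : (p : ℝ) ^ (-1 : ℝ) * (p : ℝ) ^ (-1 : ℝ) * (p : ℝ) ^ (2 - 2 * σ) = (p : ℝ) ^ (-2 * σ) := by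
    rw [← Real.rpow_add hp0, ← Real.rpow_add hp0]
    congr 1
    ring
  rw [h1, Real.rpow_neg_one]
  push_cast
  ring

/-- both sums, explicit -/
theorem both {T ε : ℝ} (hT : 1 < T) (hε : 0 < ε) {b : ℕ} {a : ℕ → ℝ} (ha : IsCM T ε b a) {X : ℕ}
    (hX : T ^ (2 * (ε * (2 * b + 2))) ≤ (X : ℝ)) {c₀ : ℝ} (hc : ∀ j, ∑ p ∈ celS T ε j, 1 / (p : ℝ) ≤ c₀) {σ : ℝ}
    (hσ : 1 / 2 ≤ σ) {s : ℝ} (hs : ∑ p ∈ (Icc 1 ⌊T ^ ε⌋₊).filter Nat.Prime, dl σ p ≤ s) (hs1 : s ≤ 1 / 2) :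
    |Ql X a σ - Vp T ε| ≤ Vp T ε * (Real.exp (s + 20 * Real.exp (52 * c₀ + 1) * (9 / 10) ^ b) - 1) ∧
    |Qg X a σ - Vp T ε| ≤ Vp T ε * (Real.exp (s + 20 * Real.exp (52 * c₀ + 1) * (9 / 10) ^ b) - 1) := by
  have bA : ∀ n : ℕ, n ≠ 0 → ‖pw (-2 * σ) n‖ ≤ 1 / n := by
    intro n hn
    rw [norm_pw]
    exact rp_le hσ hn
  have bA' : ∀ n : ℕ, n ≠ 0 → ‖pw (-1) n‖ ≤ 1 / n := by
    intro n hn
    rw [norm_pw, Real.rpow_neg_one, one_div]
  have hs2 : ∑ p ∈ (Icc 1 ⌊T ^ ε⌋₊).filter Nat.Prime, |dl σ p| ≤ s := by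
    rw [Finset.sum_congr rfl fun p hp => abs_of_nonneg (dl_nonneg hσ (mem_filter.1 hp).2)]
    exact hs
  have hs3 : ∑ p ∈ (Icc 1 ⌊T ^ ε⌋₊).filter Nat.Prime, |-dl σ p| ≤ s := by
    simp only [abs_neg]
    exact hs2
  constructor
  · have h := core hT hε ha hX hc (cmul_pw (-2 * σ)) (cmul_pw (-2 * σ)) (cmul_pw (2 * σ)) bA bA (fun n hn => by
      have hn0 : (0 : ℝ) < n := by exact_mod_cast Nat.pos_of_ne_zero hn
      rw [norm_mul, norm_mul, norm_pw, norm_pw, ← Real.rpow_add hn0, ← Real.rpow_add hn0]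
      have : -2 * σ + -2 * σ + 2 * σ = -2 * σ := by ring
      rw [this]
      exact rp_le hσ hn) (d := dl σ) (fun p hp => loc_l σ hp) hs2 hs1
    rw [← Ql_eq, ← Complex.ofReal_sub, Complex.norm_real, Real.norm_eq_abs] at h
    exact h
  · have h := core hT hε ha hX hc (cmul_pw (-1)) (cmul_pw (-1)) (cmul_pw (2 - 2 * σ)) bA' bA' (fun n hn => by
      have hn0 : (0 : ℝ) < n := by exact_mod_cast Nat.pos_of_ne_zero hn
      rw [norm_mul, norm_mul, norm_pw, norm_pw, ← Real.rpow_add hn0, ← Real.rpow_add hn0]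
      have : -1 + -1 + (2 - 2 * σ) = -2 * σ := by ring
      rw [this]
      exact rp_le hσ hn) (d := fun p => -dl σ p) (fun p hp => loc_g σ hp) hs3 hs1
    rw [← Qg_eq, ← Complex.ofReal_sub, Complex.norm_real, Real.norm_eq_abs] at h
    exact h

/-- block SV -/
theorem sv : SV := by
  intro η x₁ hη hx₁
  obtain ⟨⟨c₀, hc₀, hcell⟩, -⟩ := Pool.Agent.Helper65.HG.cs
  obtain ⟨C, hC, hM⟩ := Pool.Agent.Helper51.EA.mert1
  obtain ⟨τ, hτ⟩ : ∃ τ, τ = min (Real.log (1 + η)) 1 := ⟨_, rfl⟩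
  have hτ0 : 0 < τ := by
    rw [hτ]
    exact lt_min (Real.log_pos (by linarith)) one_pos
  have hτ1 : τ ≤ 1 := by
    rw [hτ]
    exact min_le_right _ _
  have hτη : Real.exp τ - 1 ≤ η := by
    have h1 : Real.exp τ ≤ Real.exp (Real.log (1 + η)) := Real.exp_le_exp.2 (by rw [hτ]; exact min_le_left _ _)
    rw [Real.exp_log (by linarith)] at h1
    linarith
  obtain ⟨E, hE⟩ : ∃ E, E = 20 * Real.exp (52 * c₀ + 1) := ⟨_, rfl⟩
  have hE0 : 0 < E := by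
    rw [hE]
    positivity
  obtain ⟨b₀, hb₀⟩ := exists_pow_lt_of_lt_one (show 0 < τ / (2 * E) by positivity) (show (9 / 10 : ℝ) < 1 by norm_num)
  refine ⟨b₀, fun b hb => ?_⟩
  have hbE : E * (9 / 10) ^ b ≤ τ / 2 := by
    have h1 : (9 / 10 : ℝ) ^ b ≤ (9 / 10) ^ b₀ := pow_le_pow_of_le_one (by norm_num) (by norm_num) hb
    have h2 : (9 / 10 : ℝ) ^ b ≤ τ / (2 * E) := h1.trans hb₀.le
    calc E * (9 / 10) ^ b ≤ E * (τ / (2 * E)) := mul_le_mul_of_nonneg_left h2 hE0.le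
      _ = τ / 2 := by field_simp
  refine ⟨min (τ / (16 * x₁)) (1 / (160 * (2 * b + 2))), lt_min (by positivity) (by positivity), fun ε hε hεle => ?_⟩
  have hε1 : ε ≤ τ / (16 * x₁) := hεle.trans (min_le_left _ _)
  have hε2 : ε ≤ 1 / (160 * (2 * b + 2)) := hεle.trans (min_le_right _ _)
  refine ⟨max (2 ^ 80) (Real.exp (16 * x₁ * C / τ)), fun T hT a ha σ hσ hσ1 => ?_⟩
  have hT80 : (2 : ℝ) ^ 80 ≤ T := (le_max_left _ _).trans hT
  have hTe : Real.exp (16 * x₁ * C / τ) ≤ T := (le_max_right _ _).trans hT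
  have hT1 : 1 < T := by
    have : (1 : ℝ) < 2 ^ 80 := by norm_num
    linarith
  have hT0 : 0 < T := by linarith
  have hL : 0 < Real.log T := Real.log_pos hT1
  have hLC : 16 * x₁ * C / τ ≤ Real.log T := by
    rw [← Real.log_exp (16 * x₁ * C / τ)]
    exact Real.log_le_log (Real.exp_pos _) hTe
  -- the length
  have hX : T ^ (2 * (ε * (2 * b + 2))) ≤ (XM T : ℝ) := by
    have hb2 : (0 : ℝ) < 2 * b + 2 := by positivity
    have h1 : 2 * (ε * (2 * b + 2)) ≤ 1 / 80 := by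
      have h2 : ε * (2 * b + 2) ≤ 1 / (160 * (2 * b + 2)) * (2 * b + 2) := mul_le_mul_of_nonneg_right hε2 hb2.le
      have h3 : 1 / (160 * (2 * (b : ℝ) + 2)) * (2 * b + 2) = 1 / 160 := by field_simp
      rw [h3] at h2
      linarith
    have h2 : T ^ (2 * (ε * (2 * b + 2))) ≤ T ^ (1 / 80 : ℝ) := Real.rpow_le_rpow_of_exponent_le hT1.le h1
    have h3 : (2 : ℝ) ≤ T ^ (1 / 80 : ℝ) := by
      have h4 : ((2 : ℝ) ^ 80) ^ (1 / 80 : ℝ) ≤ T ^ (1 / 80 : ℝ) := Real.rpow_le_rpow (by positivity) hT80 (by norm_num)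
      have h5 : ((2 : ℝ) ^ 80) ^ (1 / 80 : ℝ) = 2 := by
        rw [← Real.rpow_natCast, ← Real.rpow_mul (by norm_num)]
        norm_num
      rwa [h5] at h4
    have h4 : T ^ (1 / 40 : ℝ) = T ^ (1 / 80 : ℝ) * T ^ (1 / 80 : ℝ) := by
      rw [← Real.rpow_add hT0]
      norm_num
    have h5 : T ^ (1 / 40 : ℝ) < (XM T : ℝ) + 1 := Nat.lt_floor_add_one _
    nlinarith
  have hs : ∑ p ∈ (Icc 1 ⌊T ^ ε⌋₊).filter Nat.Prime, dl σ p ≤ τ / 2 := by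
    have hN : 1 ≤ ⌊T ^ ε⌋₊ := Nat.le_floor (by
      rw [Nat.cast_one]
      exact Real.one_le_rpow hT1.le hε.le)
    have h1 : ∑ p ∈ (Icc 1 ⌊T ^ ε⌋₊).filter Nat.Prime, Real.log p / p ≤ ε * Real.log T + C := by
      have h2 := (abs_le.1 (hM _ hN)).2
      have h3 : Real.log (⌊T ^ ε⌋₊ : ℝ) ≤ ε * Real.log T := by
        rw [← Real.log_rpow hT0]
        exact Real.log_le_log (by exact_mod_cast hN) (Nat.floor_le (by positivity))
      unfold PP at h2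
      linarith
    have h0 : 0 ≤ ∑ p ∈ (Icc 1 ⌊T ^ ε⌋₊).filter Nat.Prime, Real.log p / p :=
      Finset.sum_nonneg fun p _ => div_nonneg (Real.log_natCast_nonneg p) (Nat.cast_nonneg p)
    calc ∑ p ∈ (Icc 1 ⌊T ^ ε⌋₊).filter Nat.Prime, dl σ p ≤
          ∑ p ∈ (Icc 1 ⌊T ^ ε⌋₊).filter Nat.Prime, 4 * (σ - 1 / 2) * (Real.log p / p) :=
          Finset.sum_le_sum fun p hp => dl_le hσ (mem_filter.1 hp).2
      _ = 4 * (σ - 1 / 2) * ∑ p ∈ (Icc 1 ⌊T ^ ε⌋₊).filter Nat.Prime, Real.log p / p := by rw [Finset.mul_sum]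
      _ ≤ 4 * (x₁ / Real.log T) * (ε * Real.log T + C) := by
          refine mul_le_mul ?_ h1 h0 (by positivity)
          linarith
      _ = 4 * x₁ * ε + 4 * x₁ * C / Real.log T := by
          field_simp
      _ ≤ τ / 4 + τ / 4 := by
          refine add_le_add ?_ ?_
          · have h2 := mul_le_mul_of_nonneg_left hε1 (show 0 ≤ 4 * x₁ by positivity)
            have h3 : 4 * x₁ * (τ / (16 * x₁)) = τ / 4 := by
              field_simp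
              norm_num
            linarith
          · rw [div_le_iff₀ hL]
            have h2 := mul_le_mul_of_nonneg_left hLC (show 0 ≤ τ / 4 by positivity)
            have h3 : τ / 4 * (16 * x₁ * C / τ) = 4 * x₁ * C := by
              field_simp
              norm_num
            linarith
      _ = τ / 2 := by ring
  have h := both hT1 hε ha hX (fun j => hcell T ε hT1 hε j (celS T ε j) fun p hp => mem_celS.1 hp) hσ hs (by linarith)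
  have h1 : Real.exp (τ / 2 + 20 * Real.exp (52 * c₀ + 1) * (9 / 10) ^ b) - 1 ≤ η := by
    refine le_trans (sub_le_sub_right (Real.exp_le_exp.2 ?_) 1) hτη
    rw [← hE]
    linarith
  have h2 := mul_le_mul_of_nonneg_left h1 (Vp_pos T ε).le
  rw [mul_comm (Vp T ε) η] at h2
  exact ⟨h.1.trans h2, h.2.trans h2⟩

end Pool.Agent.Helper96.HG
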