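import Pool.Agent.Helper5.HG.Fact

/-!
# Hall gaps: sums over one cell

`cell`: the double sum over the numbers composed of the primes of a finite set `S`, with at most `2 l` prime factors, of
`a m * a n * (A m * B n * G (gcd m n))`, where `a` is the Möbius function up to `l` prime factors, is the Euler product up to
`2 exp(50 c₀) (9/10)^l`.
-/

set_option autoImplicit false

open Finset
open scoped ArithmeticFunction.Moebius

namespace Pool.Agent.Helper96.HG

open Pool.Agent.HG5 (lcm_mul5)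

/-! ### finite two variable Euler products -/

/-- numbers with all primes in `S` and all exponents `< K` -/
noncomputable def Un (S : Finset ℕ) (K : ℕ) : Finset ℕ := by
  classical
  exact (Icc 1 (∏ p ∈ S, p ^ K)).filter fun n => (∀ p : ℕ, p.Prime → p ∣ n → p ∈ S) ∧ ∀ p : ℕ, n.factorization p < K

lemma eq_prod {S : Finset ℕ} {n : ℕ} (hn : n ≠ 0) (h : ∀ p : ℕ, p.Prime → p ∣ n → p ∈ S) :
    n = ∏ p ∈ S, p ^ n.factorization p := by
  conv_lhs => rw [← Nat.prod_factorization_pow_eq_self hn]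
  apply Finsupp.prod_of_support_subset
  · intro p hp
    rw [Nat.support_factorization, Nat.mem_primeFactors] at hp
    exact h p hp.1 hp.2.1
  · intro p _
    exact pow_zero p

lemma mem_Un {S : Finset ℕ} (hS : ∀ p ∈ S, p.Prime) {K n : ℕ} : n ∈ Un S K ↔ n ≠ 0 ∧ (∀ p : ℕ, p.Prime → p ∣ n → p ∈ S) ∧
    ∀ p : ℕ, n.factorization p < K := by
  classical
  unfold Un
  rw [mem_filter, mem_Icc]
  constructor
  · rintro ⟨⟨h1, _⟩, h2, h3⟩
    exact ⟨by omega, h2, h3⟩
  · rintro ⟨h1, h2, h3⟩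
    refine ⟨⟨by omega, ?_⟩, h2, h3⟩
    rw [eq_prod h1 h2]
    refine Finset.prod_le_prod' fun p hp => ?_
    exact Nat.pow_le_pow_right (hS p hp).pos (h3 p).le

lemma Un_empty {K : ℕ} (hK : 0 < K) : Un ∅ K = {1} := by
  ext n
  rw [mem_Un (by simp), mem_singleton]
  constructor
  · rintro ⟨h1, h2, _⟩
    by_contra h
    obtain ⟨p, hp, hpn⟩ := Nat.exists_prime_and_dvd h
    exact absurd (h2 p hp hpn) (by simp)
  · rintro rfl
    exact ⟨one_ne_zero, fun p hp h => absurd (Nat.dvd_one.1 h) hp.one_lt.ne', fun p => by simpa using hK⟩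

lemma sum_insert_Un {S : Finset ℕ} (hS : ∀ p ∈ S, p.Prime) {q : ℕ} (hq : q.Prime) (hqS : q ∉ S) {K : ℕ} {M : Type*}
    [AddCommMonoid M] (g : ℕ → M) : ∑ x ∈ Un (insert q S) K, g x = ∑ u ∈ Un S K, ∑ i ∈ range K, g (u * q ^ i) := by
  classical
  have hS' : ∀ p ∈ insert q S, p.Prime := by
    intro p hp
    rcases mem_insert.1 hp with rfl | hp
    · exact hq
    · exact hS p hp
  rw [← Finset.sum_product']
  refine Finset.sum_nbij' (fun x => (x / q ^ x.factorization q, x.factorization q)) (fun y => y.1 * q ^ y.2) ?_ ?_ ?_ ?_ ?_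
  · intro x hx
    rw [mem_Un hS'] at hx
    obtain ⟨h1, h2, h3⟩ := hx
    rw [mem_product, mem_Un hS, mem_range]
    refine ⟨⟨?_, ?_, ?_⟩, h3 q⟩
    · exact (Nat.ordCompl_pos q h1).ne'
    · intro p hp hpx
      have h4 : p ∣ x := hpx.trans (Nat.ordCompl_dvd x q)
      rcases mem_insert.1 (h2 p hp h4) with rfl | h5
      · exact absurd hpx (Nat.not_dvd_ordCompl hp h1)
      · exact h5
    · intro p
      rw [Nat.factorization_ordCompl]
      by_cases hpq : p = q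
      · subst hpq
        rw [Finsupp.erase_same]
        exact (Nat.zero_le _).trans_lt (h3 p)
      · rw [Finsupp.erase_ne hpq]
        exact h3 p
  · rintro ⟨u, i⟩ hy
    rw [mem_product, mem_Un hS, mem_range] at hy
    obtain ⟨⟨h1, h2, h3⟩, h4⟩ := hy
    simp only at h1 h2 h3 h4 ⊢
    rw [mem_Un hS']
    have hqu : u.factorization q = 0 := by
      by_contra h
      exact hqS (h2 q hq (Nat.dvd_of_factorization_pos h))
    refine ⟨mul_ne_zero h1 (pow_ne_zero _ hq.ne_zero), ?_, ?_⟩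
    · intro p hp hpx
      rcases hp.dvd_mul.1 hpx with h | h
      · exact mem_insert_of_mem (h2 p hp h)
      · rw [(Nat.prime_dvd_prime_iff_eq hp hq).1 (hp.dvd_of_dvd_pow h)]
        exact mem_insert_self _ _
    · intro p
      rw [Nat.factorization_mul h1 (pow_ne_zero _ hq.ne_zero), Finsupp.add_apply, hq.factorization_pow]
      by_cases hpq : p = q
      · subst hpq
        rw [Finsupp.single_eq_same, hqu]
        omega
      · rw [Finsupp.single_eq_of_ne hpq]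
        simpa using h3 p
  · intro x hx
    rw [mem_Un hS'] at hx
    simp only
    rw [mul_comm]
    exact Nat.ordProj_mul_ordCompl_eq_self x q
  · rintro ⟨u, i⟩ hy
    rw [mem_product, mem_Un hS, mem_range] at hy
    obtain ⟨⟨h1, h2, h3⟩, h4⟩ := hy
    simp only at h1 h2 h3 h4 ⊢
    have hqu : u.factorization q = 0 := by
      by_contra h
      exact hqS (h2 q hq (Nat.dvd_of_factorization_pos h))
    have h5 : (u * q ^ i).factorization q = i := by
      rw [Nat.factorization_mul h1 (pow_ne_zero _ hq.ne_zero), Finsupp.add_apply, hq.factorization_pow,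
        Finsupp.single_eq_same, hqu, zero_add]
    rw [h5, Nat.mul_div_cancel _ (pow_pos hq.pos i)]
  · intro x hx
    simp only
    rw [mul_comm, Nat.ordProj_mul_ordCompl_eq_self]

/-- two variable Euler product -/
theorem euler2 {R : Type*} [CommSemiring R] {f : ℕ → ℕ → R} (f1 : f 1 1 = 1)
    (hf : ∀ u u' v v' : ℕ, u ≠ 0 → u' ≠ 0 → v ≠ 0 → v' ≠ 0 → Nat.Coprime u v → Nat.Coprime u v' → Nat.Coprime u' v →
      Nat.Coprime u' v' → f (u * v) (u' * v') = f u u' * f v v') {K : ℕ} (hK : 0 < K) {S : Finset ℕ} (hS : ∀ p ∈ S, p.Prime) :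
    ∑ m ∈ Un S K, ∑ n ∈ Un S K, f m n = ∏ p ∈ S, ∑ i ∈ range K, ∑ k ∈ range K, f (p ^ i) (p ^ k) := by
  classical
  induction S using Finset.induction_on with
  | empty => simp [Un_empty hK, f1]
  | insert q S hqS ih =>
    have hq := hS q (mem_insert_self _ _)
    have hS' : ∀ p ∈ S, p.Prime := fun p hp => hS p (mem_insert_of_mem hp)
    rw [prod_insert hqS, ← ih hS', sum_insert_Un hS' hq hqS]
    have hco : ∀ u ∈ Un S K, ∀ i : ℕ, Nat.Coprime u (q ^ i) := by
      intro u hu i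
      rw [mem_Un hS'] at hu
      refine Nat.Coprime.pow_right i ?_
      rw [Nat.coprime_comm, hq.coprime_iff_not_dvd]
      exact fun h => hqS (hu.2.1 q hq h)
    have hne : ∀ u ∈ Un S K, u ≠ 0 := fun u hu => ((mem_Un hS').1 hu).1
    have e : ∀ u ∈ Un S K, ∀ i ∈ range K, ∑ n ∈ Un (insert q S) K, f (u * q ^ i) n =
        (∑ u' ∈ Un S K, f u u') * ∑ k ∈ range K, f (q ^ i) (q ^ k) := by
      intro u hu i _
      rw [sum_insert_Un hS' hq hqS, Finset.sum_mul_sum]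
      exact Finset.sum_congr rfl fun u' hu' => Finset.sum_congr rfl fun k _ =>
        hf u u' _ _ (hne u hu) (hne u' hu') (pow_ne_zero _ hq.ne_zero) (pow_ne_zero _ hq.ne_zero) (hco u hu _) (hco u hu _)
          (hco u' hu' _) (hco u' hu' _)
    rw [Finset.sum_congr rfl fun u hu => Finset.sum_congr rfl fun i hi => e u hu i hi, mul_comm, Finset.sum_mul_sum]

/-! ### the weight -/

/-- complex valued, completely multiplicative on the positive integers -/
structure CMul (A : ℕ → ℂ) : Prop where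
  one : A 1 = 1
  mul : ∀ m n : ℕ, m ≠ 0 → n ≠ 0 → A (m * n) = A m * A n

/-- the weight `A m * B n * G (gcd m n)` -/
noncomputable def WW (A B G : ℕ → ℂ) (m n : ℕ) : ℂ := A m * B n * G (Nat.gcd m n)

lemma gcd_mul5 {u u' v v' : ℕ} (hu : u ≠ 0) (hu' : u' ≠ 0) (hv : v ≠ 0) (hv' : v' ≠ 0) (h1 : Nat.Coprime u v)
    (h2 : Nat.Coprime u v') (h3 : Nat.Coprime u' v) (h4 : Nat.Coprime u' v') :
    Nat.gcd (u * v) (u' * v') = Nat.gcd u u' * Nat.gcd v v' := by
  have e := lcm_mul5 h1 h2 h3 h4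
  have k1 := Nat.gcd_mul_lcm (u * v) (u' * v')
  have k2 := Nat.gcd_mul_lcm u u'
  have k3 := Nat.gcd_mul_lcm v v'
  have hpos : 0 < Nat.lcm u u' * Nat.lcm v v' :=
    Nat.mul_pos (Nat.lcm_pos (Nat.pos_of_ne_zero hu) (Nat.pos_of_ne_zero hu')) (Nat.lcm_pos (Nat.pos_of_ne_zero hv) (Nat.pos_of_ne_zero hv'))
  apply Nat.eq_of_mul_eq_mul_right hpos
  rw [e] at k1
  rw [k1]
  calc u * v * (u' * v') = (u * u') * (v * v') := by ring
    _ = (Nat.gcd u u' * Nat.lcm u u') * (Nat.gcd v v' * Nat.lcm v v') := by rw [k2, k3]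
    _ = _ := by ring

lemma WW_mul {A B G : ℕ → ℂ} (hA : CMul A) (hB : CMul B) (hG : CMul G) {u u' v v' : ℕ} (hu : u ≠ 0) (hu' : u' ≠ 0)
    (hv : v ≠ 0) (hv' : v' ≠ 0) (h1 : Nat.Coprime u v) (h2 : Nat.Coprime u v') (h3 : Nat.Coprime u' v) (h4 : Nat.Coprime u' v') :
    WW A B G (u * v) (u' * v') = WW A B G u u' * WW A B G v v' := by
  unfold WW
  rw [gcd_mul5 hu hu' hv hv' h1 h2 h3 h4, hA.mul u v hu hv, hB.mul u' v' hu' hv',
    hG.mul _ _ (Nat.gcd_pos_of_pos_left _ (Nat.pos_of_ne_zero hu)).ne' (Nat.gcd_pos_of_pos_left _ (Nat.pos_of_ne_zero hv)).ne']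
  ring

lemma WW_one {A B G : ℕ → ℂ} (hA : CMul A) (hB : CMul B) (hG : CMul G) : WW A B G 1 1 = 1 := by
  unfold WW
  rw [Nat.gcd_self, hA.one, hB.one, hG.one]
  ring

lemma WW_bd {A B G : ℕ → ℂ} (hA : CMul A) (hB : CMul B) (bA : ∀ n : ℕ, n ≠ 0 → ‖A n‖ ≤ 1 / n)
    (bB : ∀ n : ℕ, n ≠ 0 → ‖B n‖ ≤ 1 / n) (bG : ∀ n : ℕ, n ≠ 0 → ‖A n * B n * G n‖ ≤ 1 / n) {m n : ℕ} (hm : m ≠ 0) (hn : n ≠ 0) :
    ‖WW A B G m n‖ ≤ 1 / (Nat.lcm m n : ℝ) := by
  obtain ⟨g, hg⟩ : ∃ g, g = Nat.gcd m n := ⟨_, rfl⟩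
  have hg0 : g ≠ 0 := by rw [hg]; exact (Nat.gcd_pos_of_pos_left _ (Nat.pos_of_ne_zero hm)).ne'
  obtain ⟨m', hm'⟩ : g ∣ m := by rw [hg]; exact Nat.gcd_dvd_left m n
  obtain ⟨n', hn'⟩ : g ∣ n := by rw [hg]; exact Nat.gcd_dvd_right m n
  have hm0 : m' ≠ 0 := by rintro rfl; exact hm (by rw [hm', mul_zero])
  have hn0 : n' ≠ 0 := by rintro rfl; exact hn (by rw [hn', mul_zero])
  have hl : Nat.lcm m n = g * m' * n' := by
    have h1 := Nat.gcd_mul_lcm m n
    rw [← hg] at h1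
    apply Nat.eq_of_mul_eq_mul_left (Nat.pos_of_ne_zero hg0)
    rw [h1, hm', hn']
    ring
  have e : WW A B G m n = (A g * B g * G g) * (A m' * B n') := by
    unfold WW
    rw [← hg]
    conv_lhs => rw [hm', hn']
    rw [hA.mul g m' hg0 hm0, hB.mul g n' hg0 hn0]
    ring
  rw [e, norm_mul, norm_mul (A m'), hl]
  have h1 := bG g hg0
  have h2 := bA m' hm0
  have h3 := bB n' hn0
  have h4 : ‖A m'‖ * ‖B n'‖ ≤ 1 / m' * (1 / n') := mul_le_mul h2 h3 (norm_nonneg _) (by positivity)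
  calc ‖A g * B g * G g‖ * (‖A m'‖ * ‖B n'‖) ≤ 1 / g * (1 / m' * (1 / n')) :=
        mul_le_mul h1 h4 (by positivity) (by positivity)
    _ = _ := by
        push_cast
        have : (g : ℝ) ≠ 0 := by exact_mod_cast hg0
        have : (m' : ℝ) ≠ 0 := by exact_mod_cast hm0
        have : (n' : ℝ) ≠ 0 := by exact_mod_cast hn0
        field_simp

/-- the main term -/
lemma main_term {A B G : ℕ → ℂ} (hA : CMul A) (hB : CMul B) (hG : CMul G) {K : ℕ} (hK : 2 ≤ K) {S : Finset ℕ}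
    (hS : ∀ p ∈ S, p.Prime) : ∑ m ∈ Un S K, ∑ n ∈ Un S K, ((μ m : ℤ) : ℂ) * ((μ n : ℤ) : ℂ) * WW A B G m n =
      ∏ p ∈ S, (1 - A p - B p + A p * B p * G p) := by
  rw [euler2 (f := fun m n => ((μ m : ℤ) : ℂ) * ((μ n : ℤ) : ℂ) * WW A B G m n) ?_ ?_ (by omega) hS]
  · refine Finset.prod_congr rfl fun p hp => ?_
    have hpp := hS p hp
    have e : ∀ k, 2 ≤ k → ((μ (p ^ k) : ℤ) : ℂ) = 0 := by
      intro k hk
      rw [ArithmeticFunction.moebius_apply_prime_pow hpp (by omega), if_neg (by omega)]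
      simp
    have e1 : ((μ (p ^ 1) : ℤ) : ℂ) = -1 := by
      rw [pow_one, ArithmeticFunction.moebius_apply_prime hpp]
      simp
    have e0 : ((μ (p ^ 0) : ℤ) : ℂ) = 1 := by simp
    have hsub : range 2 ⊆ range K := by
      intro x hx
      rw [mem_range] at hx ⊢
      omega
    rw [← Finset.sum_subset hsub]
    · have : ∀ i ∈ range 2, ∑ k ∈ range K, ((μ (p ^ i) : ℤ) : ℂ) * ((μ (p ^ k) : ℤ) : ℂ) * WW A B G (p ^ i) (p ^ k) =
          ∑ k ∈ range 2, ((μ (p ^ i) : ℤ) : ℂ) * ((μ (p ^ k) : ℤ) : ℂ) * WW A B G (p ^ i) (p ^ k) := by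
        intro i _
        rw [← Finset.sum_subset hsub]
        intro k _ hk
        rw [mem_range] at hk
        rw [e k (by omega)]
        ring
      rw [Finset.sum_congr rfl this]
      simp only [Finset.sum_range_succ, Finset.sum_range_zero, zero_add]
      rw [e0, e1]
      unfold WW
      rw [pow_zero, pow_one, Nat.gcd_self, Nat.gcd_self, Nat.gcd_one_left, Nat.gcd_one_right, hA.one, hB.one, hG.one]
      ring
    · intro i _ hi
      rw [mem_range] at hi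
      refine Finset.sum_eq_zero fun k _ => ?_
      rw [e i (by omega)]
      ring
  · simp only [ArithmeticFunction.moebius_apply_one]
    rw [WW_one hA hB hG]
    simp
  · intro u u' v v' hu hu' hv hv' h1 h2 h3 h4
    rw [WW_mul hA hB hG hu hu' hv hv' h1 h2 h3 h4, ArithmeticFunction.isMultiplicative_moebius.map_mul_of_coprime h1,
      ArithmeticFunction.isMultiplicative_moebius.map_mul_of_coprime h4]
    push_cast
    ring

/-! ### the tail -/

open ArithmeticFunction (cardFactors)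

lemma lcm_pow {p : ℕ} (i k : ℕ) : Nat.lcm (p ^ i) (p ^ k) = p ^ max i k := by
  rcases le_total i k with h | h
  · rw [max_eq_right h, Nat.lcm_eq_right (pow_dvd_pow p h)]
  · rw [max_eq_left h, Nat.lcm_eq_left (pow_dvd_pow p h)]

lemma loc_term {x : ℝ} (hx : 2 ≤ x) (i k : ℕ) : (10 / 9 : ℝ) ^ (i + k) / x ^ max i k ≤
    (if i = 0 ∧ k = 0 then 1 else 0) + 2 / x * ((4 / 5) ^ i * (4 / 5) ^ k) := by
  have hx0 : 0 < x := by linarith
  by_cases h : i = 0 ∧ k = 0
  · rw [if_pos h, h.1, h.2]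
    have : 0 ≤ 2 / x * ((4 / 5 : ℝ) ^ 0 * (4 / 5) ^ 0) := by positivity
    simp at this ⊢
    positivity
  · rw [if_neg h, zero_add]
    obtain ⟨n, hn⟩ : ∃ n, max i k = n + 1 := ⟨max i k - 1, by
      have : 0 < max i k := by
        rw [lt_max_iff]
        by_contra h2
        push Not at h2
        exact h ⟨by omega, by omega⟩
      omega⟩
    have h2 : i + k ≤ 2 * (n + 1) := by
      have := le_max_left i k
      have := le_max_right i k
      omega
    rw [hn]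
    have a1 : (10 / 9 : ℝ) ^ (i + k) ≤ (10 / 9) ^ (2 * (n + 1)) := pow_le_pow_right₀ (by norm_num) h2
    have a2 : (10 / 9 : ℝ) ^ (2 * (n + 1)) / x ^ (n + 1) = (100 / 81 / x) * (100 / 81 / x) ^ n := by
      rw [pow_mul, ← div_pow, pow_succ]
      norm_num
      ring
    have a3 : (100 / 81 / x) ^ n ≤ (16 / 25) ^ n := by
      refine pow_le_pow_left₀ (by positivity) ?_ n
      rw [div_le_iff₀ hx0]
      nlinarith
    have a4 : (16 / 25 : ℝ) ^ n = 25 / 16 * (16 / 25) ^ (n + 1) := by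
      rw [pow_succ]
      ring
    have a5 : (16 / 25 : ℝ) ^ (n + 1) ≤ (4 / 5) ^ i * (4 / 5) ^ k := by
      have : (16 / 25 : ℝ) ^ (n + 1) = (4 / 5) ^ (2 * (n + 1)) := by
        rw [pow_mul]
        norm_num
      rw [this, ← pow_add]
      exact pow_le_pow_of_le_one (by norm_num) (by norm_num) h2
    calc (10 / 9 : ℝ) ^ (i + k) / x ^ (n + 1) ≤ (10 / 9) ^ (2 * (n + 1)) / x ^ (n + 1) := by gcongr
      _ = (100 / 81 / x) * (100 / 81 / x) ^ n := a2
      _ ≤ (100 / 81 / x) * (25 / 16 * ((4 / 5) ^ i * (4 / 5) ^ k)) := by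
          refine mul_le_mul_of_nonneg_left ?_ (by positivity)
          rw [a4] at a3
          refine a3.trans ?_
          exact mul_le_mul_of_nonneg_left a5 (by norm_num)
      _ ≤ _ := by
          have : (100 / 81 / x) * (25 / 16 * ((4 / 5 : ℝ) ^ i * (4 / 5) ^ k)) = (100 / 81 * (25 / 16)) / x * ((4 / 5) ^ i * (4 / 5) ^ k) := by
            ring
          rw [this]
          gcongr
          norm_num

lemma geom45 (K : ℕ) : ∑ i ∈ range K, (4 / 5 : ℝ) ^ i ≤ 5 := by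
  have h := geom_sum_eq (x := (4 / 5 : ℝ)) (by norm_num) K
  rw [h]
  have : (0 : ℝ) < (4 / 5) ^ K := by positivity
  rw [div_le_iff_of_neg (by norm_num)]
  linarith

lemma loc_sum {x : ℝ} (hx : 2 ≤ x) (K : ℕ) : ∑ i ∈ range K, ∑ k ∈ range K, (10 / 9 : ℝ) ^ (i + k) / x ^ max i k ≤ 1 + 50 / x := by
  have hx0 : 0 < x := by linarith
  calc ∑ i ∈ range K, ∑ k ∈ range K, (10 / 9 : ℝ) ^ (i + k) / x ^ max i k ≤
      ∑ i ∈ range K, ∑ k ∈ range K, ((if i = 0 ∧ k = 0 then 1 else 0) + 2 / x * ((4 / 5) ^ i * (4 / 5) ^ k)) :=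
        sum_le_sum fun i _ => sum_le_sum fun k _ => loc_term hx i k
    _ = (∑ i ∈ range K, ∑ k ∈ range K, (if i = 0 ∧ k = 0 then (1 : ℝ) else 0)) +
        2 / x * ((∑ i ∈ range K, (4 / 5 : ℝ) ^ i) * ∑ k ∈ range K, (4 / 5 : ℝ) ^ k) := by
        simp only [sum_add_distrib]
        rw [Finset.sum_mul_sum, Finset.mul_sum]
        simp only [Finset.mul_sum]
    _ ≤ 1 + 2 / x * (5 * 5) := by
        have h1 := geom45 K
        have h0 : 0 ≤ ∑ i ∈ range K, (4 / 5 : ℝ) ^ i := Finset.sum_nonneg fun _ _ => by positivity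
        have h2 : ∑ i ∈ range K, ∑ k ∈ range K, (if i = 0 ∧ k = 0 then (1 : ℝ) else 0) ≤ 1 := by
          have e : ∀ i ∈ range K, ∑ k ∈ range K, (if i = 0 ∧ k = 0 then (1 : ℝ) else 0) ≤ if i = 0 then 1 else 0 := by
            intro i _
            by_cases hi : i = 0
            · simp only [hi, true_and, if_true]
              rw [Finset.sum_ite_eq']
              split_ifs <;> norm_num
            · simp [hi]
          refine (sum_le_sum e).trans ?_
          rw [Finset.sum_ite_eq']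
          split_ifs <;> norm_num
        have h3 : (∑ i ∈ range K, (4 / 5 : ℝ) ^ i) * ∑ k ∈ range K, (4 / 5 : ℝ) ^ k ≤ 5 * 5 :=
          mul_le_mul h1 h1 h0 (by norm_num)
        have h4 : 2 / x * ((∑ i ∈ range K, (4 / 5 : ℝ) ^ i) * ∑ k ∈ range K, (4 / 5 : ℝ) ^ k) ≤ 2 / x * (5 * 5) :=
          mul_le_mul_of_nonneg_left h3 (by positivity)
        linarith
    _ = 1 + 50 / x := by ring

lemma tail_sum {S : Finset ℕ} (hS : ∀ p ∈ S, p.Prime) {c₀ : ℝ} (hc : ∑ p ∈ S, 1 / (p : ℝ) ≤ c₀) {K : ℕ} (hK : 0 < K) :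
    ∑ m ∈ Un S K, ∑ n ∈ Un S K, (10 / 9 : ℝ) ^ (cardFactors m + cardFactors n) / (Nat.lcm m n : ℝ) ≤ Real.exp (50 * c₀) := by
  rw [euler2 (f := fun m n => (10 / 9 : ℝ) ^ (cardFactors m + cardFactors n) / (Nat.lcm m n : ℝ)) ?_ ?_ hK hS]
  · have h1 : ∀ p ∈ S, ∑ i ∈ range K, ∑ k ∈ range K,
        (10 / 9 : ℝ) ^ (cardFactors (p ^ i) + cardFactors (p ^ k)) / (Nat.lcm (p ^ i) (p ^ k) : ℝ) ≤ Real.exp (50 * (1 / (p : ℝ))) := by
      intro p hp
      have hpp := hS p hp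
      have e : ∀ i k : ℕ, (10 / 9 : ℝ) ^ (cardFactors (p ^ i) + cardFactors (p ^ k)) / (Nat.lcm (p ^ i) (p ^ k) : ℝ) =
          (10 / 9 : ℝ) ^ (i + k) / (p : ℝ) ^ max i k := by
        intro i k
        rw [ArithmeticFunction.cardFactors_apply_prime_pow hpp, ArithmeticFunction.cardFactors_apply_prime_pow hpp, lcm_pow]
        push_cast
        rfl
      simp only [e]
      have hp2 : (2 : ℝ) ≤ p := by exact_mod_cast hpp.two_le
      refine (loc_sum hp2 K).trans ?_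
      have := Real.add_one_le_exp (50 * (1 / (p : ℝ)))
      have e2 : 50 / (p : ℝ) = 50 * (1 / (p : ℝ)) := by ring
      linarith
    refine (Finset.prod_le_prod (fun p _ => Finset.sum_nonneg fun _ _ => Finset.sum_nonneg fun _ _ => by positivity) h1).trans ?_
    rw [← Real.exp_sum, ← Finset.mul_sum]
    exact Real.exp_le_exp.2 (mul_le_mul_of_nonneg_left hc (by norm_num))
  · simp
  · intro u u' v v' hu hu' hv hv' h1 h2 h3 h4
    rw [lcm_mul5 h1 h2 h3 h4, ArithmeticFunction.cardFactors_mul hu hv, ArithmeticFunction.cardFactors_mul hu' hv']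
    push_cast
    rw [div_mul_div_comm, ← pow_add]
    congr 2
    ring

/-! ### the cell lemma -/

/-- numbers composed of primes of `S`, at most `N` prime factors with multiplicity -/
noncomputable def Dn (S : Finset ℕ) (N : ℕ) : Finset ℕ := (Un S (N + 1)).filter fun n => cardFactors n ≤ N

lemma fact_le_card {n : ℕ} (hn : n ≠ 0) (p : ℕ) : n.factorization p ≤ cardFactors n := by
  rw [ArithmeticFunction.cardFactors_eq_sum_factorization]
  by_cases h : p ∈ n.factorization.support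
  · exact Finset.single_le_sum (f := fun p => n.factorization p) (fun _ _ => Nat.zero_le _) h
  · rw [Finsupp.notMem_support_iff.1 h]
    exact Nat.zero_le _

theorem mem_Dn {S : Finset ℕ} (hS : ∀ p ∈ S, p.Prime) {N n : ℕ} : n ∈ Dn S N ↔ n ≠ 0 ∧ (∀ p : ℕ, p.Prime → p ∣ n → p ∈ S) ∧
    cardFactors n ≤ N := by
  unfold Dn
  rw [mem_filter, mem_Un hS]
  constructor
  · rintro ⟨⟨h1, h2, _⟩, h4⟩
    exact ⟨h1, h2, h4⟩
  · rintro ⟨h1, h2, h4⟩
    exact ⟨⟨h1, h2, fun p => ((fact_le_card h1 p).trans h4).trans_lt (Nat.lt_succ_self N)⟩, h4⟩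

theorem cell {S : Finset ℕ} (hS : ∀ p ∈ S, p.Prime) {c₀ : ℝ} (hc : ∑ p ∈ S, 1 / (p : ℝ) ≤ c₀) {l : ℕ} {a : ℕ → ℝ}
    (h1 : ∀ n ∈ Dn S (2 * l), |a n| ≤ 1) (h2 : ∀ n ∈ Dn S l, a n = (μ n : ℝ)) {A B G : ℕ → ℂ} (hA : CMul A) (hB : CMul B)
    (hG : CMul G) (bA : ∀ n : ℕ, n ≠ 0 → ‖A n‖ ≤ 1 / n) (bB : ∀ n : ℕ, n ≠ 0 → ‖B n‖ ≤ 1 / n)
    (bG : ∀ n : ℕ, n ≠ 0 → ‖A n * B n * G n‖ ≤ 1 / n) :
    ‖(∑ m ∈ Dn S (2 * l), ∑ n ∈ Dn S (2 * l), (a m : ℂ) * (a n : ℂ) * (A m * B n * G (Nat.gcd m n))) -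
      ∏ p ∈ S, (1 - A p - B p + A p * B p * G p)‖ ≤ 2 * Real.exp (50 * c₀) * (9 / 10) ^ l := by
  classical
  obtain ⟨K, hK⟩ : ∃ K, K = 2 * l + 2 := ⟨_, rfl⟩
  have hsub : Dn S (2 * l) ⊆ Un S K := by
    intro n hn
    rw [mem_Dn hS] at hn
    rw [mem_Un hS]
    exact ⟨hn.1, hn.2.1, fun p => by have := fact_le_card hn.1 p; have := hn.2.2; omega⟩
  obtain ⟨a', ha'⟩ : ∃ a' : ℕ → ℝ, a' = fun n => if n ∈ Dn S (2 * l) then a n else 0 := ⟨_, rfl⟩
  have e1 : ∑ m ∈ Dn S (2 * l), ∑ n ∈ Dn S (2 * l), (a m : ℂ) * (a n : ℂ) * (A m * B n * G (Nat.gcd m n)) =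
      ∑ m ∈ Un S K, ∑ n ∈ Un S K, (a' m : ℂ) * (a' n : ℂ) * WW A B G m n := by
    rw [← Finset.sum_subset hsub]
    · refine Finset.sum_congr rfl fun m hm => ?_
      rw [← Finset.sum_subset hsub]
      · refine Finset.sum_congr rfl fun n hn => ?_
        rw [ha']
        simp only [hm, hn, if_true]
        rfl
      · intro n _ hn
        rw [ha']
        simp [hn]
    · intro m _ hm
      refine Finset.sum_eq_zero fun n _ => ?_
      rw [ha']
      simp [hm]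
  rw [e1, ← main_term hA hB hG (K := K) (by omega) hS, ← Finset.sum_sub_distrib]
  simp only [← Finset.sum_sub_distrib]
  have key : ∀ m ∈ Un S K, ∀ n ∈ Un S K, ‖(a' m : ℂ) * (a' n : ℂ) * WW A B G m n -
      ((μ m : ℤ) : ℂ) * ((μ n : ℤ) : ℂ) * WW A B G m n‖ ≤
      2 * (9 / 10) ^ l * ((10 / 9 : ℝ) ^ (cardFactors m + cardFactors n) / (Nat.lcm m n : ℝ)) := by
    intro m hm n hn
    have hm' := (mem_Un hS).1 hm
    have hn' := (mem_Un hS).1 hn
    rw [← sub_mul, norm_mul]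
    have hl : (0 : ℝ) < (Nat.lcm m n : ℝ) := by
      exact_mod_cast Nat.lcm_pos (Nat.pos_of_ne_zero hm'.1) (Nat.pos_of_ne_zero hn'.1)
    have hW := WW_bd hA hB bA bB bG hm'.1 hn'.1
    by_cases hc1 : cardFactors m ≤ l ∧ cardFactors n ≤ l
    · have f : ∀ k, k ≠ 0 → (∀ p : ℕ, p.Prime → p ∣ k → p ∈ S) → cardFactors k ≤ l → a' k = (μ k : ℝ) := by
        intro k hk0 hk1 hk2
        have g1 : k ∈ Dn S (2 * l) := (mem_Dn hS).2 ⟨hk0, hk1, by omega⟩
        rw [ha']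
        simp only [g1, if_true]
        exact h2 k ((mem_Dn hS).2 ⟨hk0, hk1, hk2⟩)
      rw [f m hm'.1 hm'.2.1 hc1.1, f n hn'.1 hn'.2.1 hc1.2]
      push_cast
      rw [sub_self, norm_zero, zero_mul]
      positivity
    · have f : ∀ k, |a' k| ≤ 1 := by
        intro k
        rw [ha']
        simp only
        split_ifs with hk
        · exact h1 k hk
        · simp
      have g : ∀ k : ℕ, ‖((μ k : ℤ) : ℂ)‖ ≤ 1 := by
        intro k
        rw [Complex.norm_intCast]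
        exact_mod_cast ArithmeticFunction.abs_moebius_le_one
      have b1 : ‖(a' m : ℂ) * (a' n : ℂ) - ((μ m : ℤ) : ℂ) * ((μ n : ℤ) : ℂ)‖ ≤ 2 := by
        refine (norm_sub_le _ _).trans ?_
        rw [norm_mul, norm_mul, Complex.norm_real, Complex.norm_real, Real.norm_eq_abs, Real.norm_eq_abs]
        have c1 : |a' m| * |a' n| ≤ 1 * 1 := mul_le_mul (f m) (f n) (abs_nonneg _) (by norm_num)
        have c2 : ‖((μ m : ℤ) : ℂ)‖ * ‖((μ n : ℤ) : ℂ)‖ ≤ 1 * 1 := mul_le_mul (g m) (g n) (norm_nonneg _) (by norm_num)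
        linarith
      have b2 : 1 ≤ (9 / 10 : ℝ) ^ l * (10 / 9) ^ (cardFactors m + cardFactors n) := by
        have : (9 / 10 : ℝ) ^ l * (10 / 9) ^ l = 1 := by
          rw [← mul_pow]
          norm_num
        rw [← this]
        refine mul_le_mul_of_nonneg_left (pow_le_pow_right₀ (by norm_num) ?_) (by positivity)
        by_contra h
        exact hc1 ⟨by omega, by omega⟩
      calc ‖(a' m : ℂ) * (a' n : ℂ) - ((μ m : ℤ) : ℂ) * ((μ n : ℤ) : ℂ)‖ * ‖WW A B G m n‖ ≤ 2 * (1 / (Nat.lcm m n : ℝ)) :=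
            mul_le_mul b1 hW (norm_nonneg _) (by norm_num)
        _ ≤ 2 * ((9 / 10 : ℝ) ^ l * (10 / 9) ^ (cardFactors m + cardFactors n)) * (1 / (Nat.lcm m n : ℝ)) := by
            have : (0 : ℝ) ≤ 1 / (Nat.lcm m n : ℝ) := by positivity
            nlinarith
        _ = _ := by ring
  refine (norm_sum_le _ _).trans ?_
  refine (Finset.sum_le_sum fun m hm => (norm_sum_le _ _).trans (Finset.sum_le_sum fun n hn => key m hm n hn)).trans ?_
  simp only [← Finset.mul_sum]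
  have ht := tail_sum hS hc (K := K) (by omega)
  calc 2 * (9 / 10 : ℝ) ^ l * ∑ m ∈ Un S K, ∑ n ∈ Un S K, (10 / 9 : ℝ) ^ (cardFactors m + cardFactors n) / (Nat.lcm m n : ℝ) ≤
      2 * (9 / 10) ^ l * Real.exp (50 * c₀) := mul_le_mul_of_nonneg_left ht (by positivity)
    _ = _ := by ring

end Pool.Agent.Helper96.HG
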